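import Pool.Agent.Helper99.MKV.GoalsR
import Pool.Agent.Helper83.EXC.HPL
import Pool.Agent.Helper50.EXC.ASM

/-! # Packet LNK of project MKV (MP_f41a60_pr) -/

open Finset MeasureTheory ProbabilityTheory Filter
open scoped ENNReal

namespace Pool.Agent.Helper43.MKV

open Pool.Agent.Helper99.MKV Pool.Agent.Helper99.EXC Pool.Agent.Helper99.ERW

variable {E : Type} [Fintype E] [MeasurableSpace E] [MeasurableSingletonClass E]

lemma measurable_fE (f : E → ℝ) : Measurable f := measurable_of_finite f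

lemma measurable_envOf (f : E → ℝ) : Measurable (envOf f) := by
  refine measurable_pi_lambda _ fun z => measurable_pi_lambda _ fun e =>
    measurable_pi_lambda _ fun i => ?_
  have h1 : Measurable (fun ξ : Site 2 → ℕ → E => f (ξ z i)) :=
    (measurable_fE f).comp ((measurable_pi_apply i).comp (measurable_pi_apply z))
  unfold envOf
  by_cases h : e.1 = 0
  · simp only [h, if_true]
    exact h1.div_const 2
  · simp only [h, if_false]
    exact (measurable_const.sub h1).div_const 2

lemma envOf_cookie {f : E → ℝ} (hf : ∀ e, 0 ≤ f e ∧ f e ≤ 1) (ξ : Site 2 → ℕ → E) :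
    IsCookieEnv (envOf f ξ) := by
  intro z i
  have h := hf (ξ z i)
  constructor
  · intro e
    unfold envOf
    split_ifs <;> linarith
  · rw [Pool.Agent.Helper83.EXC.sum_dir]
    unfold envOf
    simp only [if_true, one_ne_zero, if_false]
    ring

lemma envOf_balanced (f : E → ℝ) (ξ : Site 2 → ℕ → E) : IsBalanced (envOf f ξ) := by
  intro z l i
  unfold envOf
  rfl

lemma ae_cb {f : E → ℝ} (hf : ∀ e, 0 ≤ f e ∧ f e ≤ 1) (Q : Measure (Site 2 → ℕ → E)) :
    ∀ᵐ ω ∂(Q.map (envOf f)), IsCookieEnv ω ∧ IsBalanced ω := by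
  rw [ae_map_iff (measurable_envOf f).aemeasurable Pool.Agent.Helper50.EXC.measurableSet_cb]
  exact Eventually.of_forall fun ξ => ⟨envOf_cookie hf ξ, envOf_balanced f ξ⟩

lemma pw_shift_envOf (f : E → ℝ) (y : Site 2) (ξ : Site 2 → ℕ → E) :
    pw (shift y (envOf f ξ)) = fun z i => f (ξ (z + y) i) := by
  funext z i
  unfold pw shift envOf
  simp only [if_true]
  ring

/-- spatial shift of the fields of stacks -/
def sh (y : Site 2) (ξ : Site 2 → ℕ → E) : Site 2 → ℕ → E := fun z => ξ (z + y)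

omit [Fintype E] [MeasurableSingletonClass E] in
lemma measurable_sh (y : Site 2) : Measurable (sh (E := E) y) :=
  measurable_pi_lambda _ fun z => measurable_pi_apply (z + y)

omit [Fintype E] [MeasurableSpace E] [MeasurableSingletonClass E] in
lemma sh_neg_sh (y : Site 2) (ξ : Site 2 → ℕ → E) : sh (-y) (sh y ξ) = ξ := by
  funext z
  unfold sh
  rw [neg_add_cancel_right]

omit [Fintype E] in
lemma measurableSet_cylF (F : Finset (Site 2)) (n : Site 2 → ℕ) (x : Site 2 → ℕ → E) :
    MeasurableSet {ξ : Site 2 → ℕ → E | ∀ z ∈ F, ∀ i ≤ n z, ξ z i = x z i} := by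
  have h1 : {ξ : Site 2 → ℕ → E | ∀ z ∈ F, ∀ i ≤ n z, ξ z i = x z i} =
      ⋂ z ∈ F, ⋂ i ∈ Finset.range (n z + 1), {ξ : Site 2 → ℕ → E | ξ z i = x z i} := by
    ext ξ
    simp only [Set.mem_ofPred_eq, Set.mem_iInter, Finset.mem_range, Nat.lt_succ_iff]
  rw [h1]
  refine Finset.measurableSet_biInter _ fun z _ => Finset.measurableSet_biInter _ fun i _ => ?_
  have h2 : Measurable (fun ξ : Site 2 → ℕ → E => ξ z i) :=
    (measurable_pi_apply i).comp (measurable_pi_apply z)
  exact h2 (measurableSet_singleton (x z i))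

omit [Fintype E] in
lemma measurableSet_cylN (F : Finset (Site 2)) (x : Site 2 → E) :
    MeasurableSet {ζ : Site 2 → E | ∀ z ∈ F, ζ z = x z} := by
  have h1 : {ζ : Site 2 → E | ∀ z ∈ F, ζ z = x z} = ⋂ z ∈ F, {ζ : Site 2 → E | ζ z = x z} := by
    ext ξ
    simp only [Set.mem_ofPred_eq, Set.mem_iInter]
  rw [h1]
  refine Finset.measurableSet_biInter _ fun z _ => ?_
  have h2 : Measurable (fun ζ : Site 2 → E => ζ z) := measurable_pi_apply z
  exact h2 (measurableSet_singleton (x z))

omit [Fintype E] in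
lemma isField_shift {p : E → E → ℝ} {ν : Measure (Site 2 → E)} {Q : Measure (Site 2 → ℕ → E)}
    (h : IsField p ν Q) (y : Site 2) :
    IsField p (ν.map (fun ζ z => ζ (z + y))) (Q.map (sh y)) := by
  classical
  intro F n x
  have hm : Measurable (fun (ζ : Site 2 → E) (z : Site 2) => ζ (z + y)) :=
    measurable_pi_lambda _ fun z => measurable_pi_apply (z + y)
  rw [Measure.map_apply (measurable_sh y) (measurableSet_cylF F n x),
    Measure.map_apply hm (measurableSet_cylN F fun z => x z 0)]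
  have h1 : sh y ⁻¹' {ξ : Site 2 → ℕ → E | ∀ z ∈ F, ∀ i ≤ n z, ξ z i = x z i} =
      {ξ | ∀ z ∈ F.map (addRightEmbedding y), ∀ i ≤ (fun z => n (z - y)) z,
        ξ z i = (fun z => x (z - y)) z i} := by
    ext ξ
    simp only [Set.mem_preimage, Set.mem_ofPred_eq, Finset.mem_map, addRightEmbedding_apply, sh]
    constructor
    · rintro h3 z ⟨z', hz', rfl⟩ i hi
      rw [add_sub_cancel_right] at hi ⊢
      exact h3 z' hz' i hi
    · intro h3 z hz i hi
      have h4 := h3 (z + y) ⟨z, hz, rfl⟩ i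
      rw [add_sub_cancel_right] at h4
      exact h4 hi
  have h2 : (fun (ζ : Site 2 → E) (z : Site 2) => ζ (z + y)) ⁻¹'
      {ζ : Site 2 → E | ∀ z ∈ F, ζ z = x z 0} =
      {ζ | ∀ z ∈ F.map (addRightEmbedding y), ζ z = (fun z => x (z - y)) z 0} := by
    ext ξ
    simp only [Set.mem_preimage, Set.mem_ofPred_eq, Finset.mem_map, addRightEmbedding_apply]
    constructor
    · rintro h3 z ⟨z', hz', rfl⟩
      rw [add_sub_cancel_right]
      exact h3 z' hz'
    · intro h3 z hz
      have h4 := h3 (z + y) ⟨z, hz, rfl⟩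
      rw [add_sub_cancel_right] at h4
      exact h4
  rw [h1, h2, h, Finset.prod_map]
  simp only [addRightEmbedding_apply, add_sub_cancel_right]

/-- The path probability reads only the cookies below the local times. -/
lemma stepProb_congr (f : E → ℝ) {ξ ξ' : Site 2 → ℕ → E} (x : ℕ → Site 2) (m k : ℕ) (hk : k < m)
    (h : ∀ z, ∀ j < visits x m z, ξ z j = ξ' z j) :
    stepProb (envOf f ξ) x k = stepProb (envOf f ξ') x k := by
  unfold stepProb
  refine Finset.sum_congr rfl fun e _ => ?_
  have h1 : pastVisits x k < visits x m (x k) := by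
    unfold pastVisits visits
    refine Finset.card_lt_card ?_
    rw [Finset.ssubset_iff_of_subset]
    · exact ⟨k, by simp [hk], by simp⟩
    · intro r hr
      simp only [Finset.mem_filter, Finset.mem_range] at hr ⊢
      exact ⟨hr.1.trans hk, hr.2⟩
  have h2 : ξ (x k) (pastVisits x k) = ξ' (x k) (pastVisits x k) := h _ _ h1
  unfold envOf
  rw [h2]

lemma pathProb_congr (f : E → ℝ) {ξ ξ' : Site 2 → ℕ → E} (x : ℕ → Site 2) (m : ℕ)
    (h : ∀ z, ∀ j < visits x m z, ξ z j = ξ' z j) :
    pathProb (envOf f ξ) x m = pathProb (envOf f ξ') x m := by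
  unfold pathProb
  refine Finset.prod_congr rfl fun k hk => ?_
  exact stepProb_congr f x m k (Finset.mem_range.mp hk) h

lemma measurable_hpF (f : E → ℝ) (y : Site 2) (N : ℕ) (s : St) :
    Measurable (fun ξ : Site 2 → ℕ → E =>
      Pool.Agent.Helper99.EXC.hp (fun z i => f (ξ (z + y) i)) N s) := by
  have h1 := (Pool.Agent.Helper83.EXC.measurable_hp y N s).comp (measurable_envOf f)
  have h2 : (fun ω : Env 2 => Pool.Agent.Helper99.EXC.hp (pw (shift y ω)) N s) ∘ envOf f =
      fun ξ : Site 2 → ℕ → E => Pool.Agent.Helper99.EXC.hp (fun z i => f (ξ (z + y) i)) N s := by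
    funext ξ
    simp only [Function.comp]
    rw [pw_shift_envOf]
  rw [h2] at h1
  exact h1

/-- PACKET LNK. -/
theorem LNK (hANN : ANN_stmt) (hHPL : HPL_stmt) : LNK_stmt := by
  intro E _ _ _ p f ν Q _ hp hf hQ Ω mΩ μ _ env X hX y m N x hx0
  have hcb := ae_cb hf Q
  have hC : ∀ᵐ ω ∂(Q.map (envOf f)), IsCookieEnv ω := by
    filter_upwards [hcb] with ω h using h.1
  have hB : ∀ᵐ ω ∂(Q.map (envOf f)), IsBalanced ω := by
    filter_upwards [hcb] with ω h using h.2
  set L : Site 2 → ℕ := fun z => visits x m (z + y) with hL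
  set s0 : St := (x m - y, L) with hs0
  -- the walk
  have hcylm : MeasurableSet (cyl X x m) := hX.hist_le m _ (measurableSet_cyl_hist env X x m)
  have hmg : Measurable (fun ω : Env 2 => Pool.Agent.Helper99.EXC.hp (pw (shift y ω)) N s0) :=
    Pool.Agent.Helper83.EXC.measurable_hp y N s0
  have hst : ∀ w ∈ cyl X x m, stt X y m w = s0 := by
    intro w hw
    have h1 : Pool.Agent.Helper83.EXC.stP (fun k => X k w) y m =
        Pool.Agent.Helper83.EXC.stP x y m :=
      Pool.Agent.Helper83.EXC.stP_congr (fun j hj => hw j hj) y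
    exact h1
  have h1 := (hHPL Ω mΩ (Q.map (envOf f)) μ env X hX hC hB y N m).2 (cyl X x m)
    (measurableSet_cyl_hist env X x m)
  have h2 : ∫ w in cyl X x m, Pool.Agent.Helper99.EXC.hp (pw (shift y (env w))) N
        (stt X y m w) ∂μ =
      ∫ w in cyl X x m, Pool.Agent.Helper99.EXC.hp (pw (shift y (env w))) N s0 ∂μ := by
    refine setIntegral_congr_fun hcylm fun w hw => ?_
    simp only [hst w hw]
  rw [h2] at h1
  have hbd : ∀ᵐ w ∂μ, 0 ≤ Pool.Agent.Helper99.EXC.hp (pw (shift y (env w))) N s0 ∧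
      Pool.Agent.Helper99.EXC.hp (pw (shift y (env w))) N s0 ≤ 1 := by
    filter_upwards [hX.ae_env hC, hX.ae_env hB] with w hw1 hw2
    exact Pool.Agent.Helper83.EXC.hp_bounds
      (fun z i => (Pool.Agent.Helper83.EXC.pw_bounds
        (Pool.Agent.Helper83.EXC.shift_cookie hw1 y)
        (Pool.Agent.Helper83.EXC.shift_balanced hw2 y) z i).1)
      (fun z i => (Pool.Agent.Helper83.EXC.pw_bounds
        (Pool.Agent.Helper83.EXC.shift_cookie hw1 y)
        (Pool.Agent.Helper83.EXC.shift_balanced hw2 y) z i).2) N _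
  have hint : Integrable (fun w => Pool.Agent.Helper99.EXC.hp (pw (shift y (env w))) N s0) μ := by
    refine Integrable.of_bound (C := 1)
      (hmg.comp hX.measurable_env).aestronglyMeasurable ?_
    filter_upwards [hbd] with w hw
    rw [Real.norm_eq_abs, abs_of_nonneg hw.1]
    exact hw.2
  have h3 : ∫⁻ w in cyl X x m, ENNReal.ofReal
      (Pool.Agent.Helper99.EXC.hp (pw (shift y (env w))) N s0) ∂μ ≤
      μ (cyl X x m ∩ {w | ∃ i, m ≤ i ∧ i ≤ m + N ∧ X i w = y}) := by
    rw [← ofReal_integral_eq_lintegral_ofReal hint.integrableOn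
      (ae_restrict_of_ae (hbd.mono fun w hw => hw.1))]
    refine (ENNReal.ofReal_le_ofReal h1).trans ?_
    rw [measureReal_def, ENNReal.ofReal_toReal (measure_ne_top _ _)]
  refine le_trans (le_of_eq ?_) h3
  rw [hX.lintegral_cyl hC x hx0 m
    (fun ω => ENNReal.ofReal (Pool.Agent.Helper99.EXC.hp (pw (shift y ω)) N s0))
    (ENNReal.measurable_ofReal.comp hmg)]
  have hmPP : Measurable (fun ω : Env 2 => ENNReal.ofReal (pathProb ω x m)) :=
    ENNReal.measurable_ofReal.comp (measurable_pathProb x m)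
  have h7 : ∫⁻ ω, ENNReal.ofReal (Pool.Agent.Helper99.EXC.hp (pw (shift y ω)) N s0) *
        ENNReal.ofReal (pathProb ω x m) ∂(Q.map (envOf f)) =
      ∫⁻ ξ, ENNReal.ofReal (Pool.Agent.Helper99.EXC.hp (pw (shift y (envOf f ξ))) N s0) *
        ENNReal.ofReal (pathProb (envOf f ξ) x m) ∂Q :=
    lintegral_map ((ENNReal.measurable_ofReal.comp hmg).mul hmPP) (measurable_envOf f)
  rw [h7]
  -- the shifted field
  have hprob : IsProbabilityMeasure (Q.map (sh y)) :=
    Measure.isProbabilityMeasure_map (measurable_sh y).aemeasurable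
  have hann := hANN E p f (ν.map (fun ζ z => ζ (z + y))) (Q.map (sh y)) hp hf
    (isField_shift hQ y) N
  have hG : Measurable (fun ξ : Site 2 → ℕ → E =>
      ENNReal.ofReal (pathProb (envOf f (sh (-y) ξ)) x m)) :=
    hmPP.comp ((measurable_envOf f).comp (measurable_sh (-y)))
  have h4 := hann.2 (x m - y) L
    (fun ξ => ENNReal.ofReal (pathProb (envOf f (sh (-y) ξ)) x m)) hG (by
      intro ξ ξ' hξ
      refine congrArg ENNReal.ofReal (pathProb_congr f x m fun z j hj => ?_)
      unfold sh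
      refine hξ (z + -y) j ?_
      rw [hL]
      simp only [neg_add_cancel_right]
      exact hj.le)
  have hm1 : Measurable (fun ξ : Site 2 → ℕ → E => ENNReal.ofReal
      (Pool.Agent.Helper99.EXC.hp (fun z i => f (ξ z i)) N (x m - y, L))) := by
    have h5 := measurable_hpF f 0 N (x m - y, L)
    simp only [add_zero] at h5
    exact ENNReal.measurable_ofReal.comp h5
  have hm2 : Measurable (fun ξ : Site 2 → ℕ → E => ENNReal.ofReal
      (Pool.Agent.Helper99.MKV.hp (chS p f) N (x m - y, fun z => ξ z (L z)))) := by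
    have h5 : Measurable (fun (ξ : Site 2 → ℕ → E) (z : Site 2) => ξ z (L z)) :=
      measurable_pi_lambda _ fun z => (measurable_pi_apply (L z)).comp (measurable_pi_apply z)
    exact ENNReal.measurable_ofReal.comp ((hann.1 (x m - y)).comp h5)
  have h8 := lintegral_map (μ := Q) (hG.mul hm1) (measurable_sh y)
  have h9 := lintegral_map (μ := Q) (hG.mul hm2) (measurable_sh y)
  simp only [Pi.mul_apply, sh_neg_sh] at h8 h9
  rw [h8, h9] at h4
  have h6 : ∀ ξ : Site 2 → ℕ → E,
      ENNReal.ofReal (Pool.Agent.Helper99.EXC.hp (pw (shift y (envOf f ξ))) N s0) *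
        ENNReal.ofReal (pathProb (envOf f ξ) x m) =
      ENNReal.ofReal (pathProb (envOf f ξ) x m) * ENNReal.ofReal
        (Pool.Agent.Helper99.EXC.hp (fun z i => f (sh y ξ z i)) N (x m - y, L)) := by
    intro ξ
    rw [mul_comm, pw_shift_envOf]
    rfl
  simp only [h6]
  exact h4.symm

end Pool.Agent.Helper43.MKV
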